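import Pool.Agent.R623.LN.F

/-! Residues on the levels of generalised Collatz maps with costs, part A: classes modulo powers of the
multipliers. -/

set_option autoImplicit false

namespace Pool.Agent.R344.FD
open Pool.Agent.H319R3.GC Pool.Agent.H319R3.DN Finset Filter Topology MeasureTheory
open Pool.Agent.R623.LM (Bas stay bounded fin_of_bdd abs_eq gg gg_int int_gg Fw_fin Fw_int)
open Pool.Agent.R623.LN (Syn equi_of cst UC UC_mono UC_step Syn_UC bounded_UC eventually_UC)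

variable {d : ℕ} {m r : ℕ → ℤ}

theorem coarse_of (h : Adm d m r) {R' : ℝ} (B i : ℕ) (he : ∃ ν L₀ C : ℝ, 0 < ν ∧ 1 ≤ L₀ ∧ 0 < C ∧
    ∀ S : Set ℤ, Syn d m r R' S → ∀ σ : ℤ, (σ = 1 ∨ σ = -1) → ∀ a : ℝ, 0 < a → L₀ ≤ Real.log a →
      ∀ c₁ c₂ : ℤ,
      |nw S σ a (2 * a) (PP d m ^ ⌊ν * Real.log a⌋₊) c₁
        - nw S σ a (2 * a) (PP d m ^ ⌊ν * Real.log a⌋₊) c₂|
        ≤ C / (Real.log a) ^ B * (a / (PP d m ^ ⌊ν * Real.log a⌋₊ : ℕ))) :
    ∃ L₀ C : ℝ, 1 ≤ L₀ ∧ 0 < C ∧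
    ∀ S : Set ℤ, Syn d m r R' S → ∀ σ : ℤ, (σ = 1 ∨ σ = -1) → ∀ a : ℝ, 0 < a → L₀ ≤ Real.log a →
      ∀ Q : ℕ, Q ∣ PP d m ^ i → ∀ c : ℤ,
      |Q * nw S σ a (2 * a) Q c - nw S σ a (2 * a) 1 0| ≤ C * Q * a / (Real.log a) ^ B := by
  obtain ⟨ν, L₀, C, hν, hL, hC, H⟩ := he
  refine ⟨max L₀ (i / ν), 2 * C, le_max_of_le_left hL, by positivity, ?_⟩
  intro S hS σ hσ a ha hla Q hQP c
  have hL1 : L₀ ≤ Real.log a := (le_max_left _ _).trans hla
  have hL2 : (i : ℝ) ≤ ν * Real.log a := by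
    have := (le_max_right L₀ (i / ν)).trans hla
    rw [div_le_iff₀ hν] at this
    linarith
  have hlog : 0 < Real.log a := by linarith
  have hn : i ≤ ⌊ν * Real.log a⌋₊ := by
    rw [Nat.le_floor_iff (by positivity)]; exact hL2
  have H' := H S hS σ hσ a ha hL1
  have hP : 0 < PP d m := by have := h.big; omega
  have hQ0 : 0 < Q := Nat.pos_of_dvd_of_pos hQP (by positivity)
  obtain ⟨R, hR⟩ : Q ∣ PP d m ^ ⌊ν * Real.log a⌋₊ := hQP.trans (pow_dvd_pow _ hn)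
  rw [hR] at H'
  have hQR0 : 0 < Q * R := by rw [← hR]; positivity
  have hR0 : 0 < R := Nat.pos_of_mul_pos_left hQR0 |> fun _ => by
    rcases Nat.eq_zero_or_pos R with h0 | h0
    · rw [h0] at hQR0; simp at hQR0
    · exact h0
  set E : ℝ := C / (Real.log a) ^ B * (a / (Q * R : ℕ)) with hE
  have hab : a ≤ 2 * a := by linarith
  have s1 := nw_split S hσ hab hQ0 hR0 c
  have s2 := nw_split S hσ hab (Q := 1) one_pos hQR0 0
  rw [s1, s2]
  set u := nw S σ a (2 * a) (Q * R) 0 with hu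
  have e1 : |∑ j ∈ range R, nw S σ a (2 * a) (Q * R) (c + Q * j) - R * u| ≤ R * E := by
    have : ∑ j ∈ range R, nw S σ a (2 * a) (Q * R) (c + Q * j) - R * u
        = ∑ j ∈ range R, (nw S σ a (2 * a) (Q * R) (c + Q * j) - u) := by
      rw [Finset.sum_sub_distrib]; simp
    rw [this]
    refine (Finset.abs_sum_le_sum_abs _ _).trans ?_
    refine (Finset.sum_le_sum fun j _ => H' _ _).trans ?_
    simp
  have e2 : |∑ j ∈ range (Q * R), nw S σ a (2 * a) (1 * (Q * R)) (0 + (1 : ℕ) * j)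
      - (Q * R : ℕ) * u| ≤ (Q * R : ℕ) * E := by
    have : ∑ j ∈ range (Q * R), nw S σ a (2 * a) (1 * (Q * R)) (0 + (1 : ℕ) * j)
        - (Q * R : ℕ) * u
        = ∑ j ∈ range (Q * R), (nw S σ a (2 * a) (1 * (Q * R)) (0 + (1 : ℕ) * j) - u) := by
      rw [Finset.sum_sub_distrib]; simp
    rw [this]
    refine (Finset.abs_sum_le_sum_abs _ _).trans ?_
    refine (Finset.sum_le_sum (g := fun _ => E) fun j _ => ?_).trans ?_
    · rw [one_mul]; exact H' _ _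
    · simp
  have hQr : (1 : ℝ) ≤ Q := by exact_mod_cast hQ0
  have hRr : (0 : ℝ) < R := by exact_mod_cast hR0
  have hEe : (Q * R : ℕ) * E = C * a / (Real.log a) ^ B := by
    rw [hE]; push_cast
    field_simp
  have key : |Q * ∑ j ∈ range R, nw S σ a (2 * a) (Q * R) (c + Q * j)
      - ∑ j ∈ range (Q * R), nw S σ a (2 * a) (1 * (Q * R)) (0 + (1 : ℕ) * j)|
      ≤ 2 * ((Q * R : ℕ) * E) := by
    rw [abs_le] at e1 e2 ⊢
    have h1 := mul_le_mul_of_nonneg_left e1.1 (by linarith : (0 : ℝ) ≤ Q)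
    have h2 := mul_le_mul_of_nonneg_left e1.2 (by linarith : (0 : ℝ) ≤ Q)
    push_cast at *
    constructor <;> nlinarith [e2.1, e2.2]
  refine key.trans ?_
  rw [hEe]
  have h3 : 0 ≤ C * a / (Real.log a) ^ B := by positivity
  have h4 : 2 * C * Q * a / (Real.log a) ^ B = Q * (2 * (C * a / (Real.log a) ^ B)) := by ring
  rw [h4]
  nlinarith

theorem equi_pow (h : Adm d m r) {R : ℝ} (hR : 0 ≤ R) (B i : ℕ) : ∃ L₀ C : ℝ, 1 ≤ L₀ ∧ 0 < C ∧
    ∀ S : Set ℤ, Syn d m r R S → ∀ σ : ℤ, (σ = 1 ∨ σ = -1) → ∀ a : ℝ, 0 < a → L₀ ≤ Real.log a →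
      ∀ Q : ℕ, Q ∣ PP d m ^ i → ∀ c : ℤ,
      |Q * nw S σ a (2 * a) Q c - nw S σ a (2 * a) 1 0| ≤ C * Q * a / (Real.log a) ^ B := by
  classical
  refine coarse_of h B i (equi_of ?_ h hR B)
  intro S σ hσ a ha k Q i₁ i₂ hQ hQd hk c Bad V hV0 hVa hV hcnt
  convert window_groups h S hσ ha hQ hQd hk c Bad hV0 hVa hV hcnt

/-- the part of `S` in a residue class -/
def Cl (S : Set ℤ) (Q : ℕ) (c : ℤ) : Set ℤ := {x | x ∈ S ∧ (Q : ℤ) ∣ x - c}

theorem nw_Cl (S : Set ℤ) (σ : ℤ) (a b : ℝ) (Q : ℕ) (c : ℤ) : nw (Cl S Q c) σ a b 1 0 = nw S σ a b Q c := by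
  unfold nw Cl
  congr 2
  ext x
  simp only [Set.mem_ofPred_eq]
  constructor
  · rintro ⟨⟨h1, h2⟩, h3, h4, _⟩; exact ⟨h1, h3, h4, h2⟩
  · rintro ⟨h1, h3, h4, h2⟩; exact ⟨⟨h1, h2⟩, h3, h4, by simp⟩

/-- the positive integers on the level number `K + 1` -/
def Lv (d : ℕ) (m r : ℕ → ℤ) (e : ℕ → ℕ) (F : Set ℤ) (K : ℕ) : Set ℤ :=
  {x | x ∈ UC d m r e F (K + 1) ∧ x ∉ UC d m r e F K ∧ 0 < x}

/-- the reciprocal mass of a set of integers -/
noncomputable def ms (A : Set ℤ) : ℝ := ∑' x : A, 1 / |((x : ℤ) : ℝ)|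

theorem ms_fin (A : Finset ℤ) : ms (A : Set ℤ) = ∑ x ∈ A, 1 / |(x : ℝ)| :=
  Finset.tsum_subtype' A (fun x : ℤ => 1 / |(x : ℝ)|)

/-- the setting -/
structure Setup (d : ℕ) (m r : ℕ → ℤ) (e : ℕ → ℕ) (F F' : Set ℤ) : Prop where
  adm : Adm d m r
  he : ∀ i < d, e i ≤ 1
  hdet : ∀ (k : ℕ) (x y : ℤ), Mw m (wd d m r k x) = Mw m (wd d m r k y) →
      cst d m r e k x = cst d m r e k y
  hFF : F ⊆ F'
  hF : F'.Finite
  hT : ∀ x ∈ F', Tm d m r x ∈ F'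

theorem Setup.bound {e : ℕ → ℕ} {F F' : Set ℤ} (s : Setup d m r e F F') :
    ∃ R : ℝ, 0 ≤ R ∧ ∀ x ∈ F', |(x : ℝ)| ≤ R := by
  have hF := s.hF
  refine ⟨∑ x ∈ hF.toFinset, |(x : ℝ)|, sum_nonneg fun x _ => abs_nonneg _, fun x hx => ?_⟩
  exact single_le_sum (f := fun x : ℤ => |(x : ℝ)|) (fun y _ => abs_nonneg _) (hF.mem_toFinset.2 hx)

theorem Setup.Lv_bound {e : ℕ → ℕ} {F F' : Set ℤ} (s : Setup d m r e F F') (K : ℕ) :
    ∃ B : ℝ, ∀ x ∈ UC d m r e F K, |(x : ℝ)| ≤ B := by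
  obtain ⟨R, _, hR⟩ := s.bound
  exact bounded_UC s.adm s.he s.hFF s.hT hR K

theorem Setup.Lv_fin {e : ℕ → ℕ} {F F' : Set ℤ} (s : Setup d m r e F F') (K : ℕ) :
    (Lv d m r e F K).Finite := by
  obtain ⟨B, hB⟩ := s.Lv_bound (K + 1)
  exact fin_of_bdd (B := B) (fun x hx => hB x hx.1)

/-- all elements of the late levels are large -/
theorem Lv_large {e : ℕ → ℕ} {F : Set ℤ} (Y : ℝ) : ∃ K₀ : ℕ, ∀ K, K₀ ≤ K → ∀ x ∈ Lv d m r e F K, Y < x := by
  obtain ⟨K₀, hK₀⟩ := eventually_UC (d := d) (m := m) (r := r) (e := e) (F := F) Y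
  refine ⟨K₀, fun K hK x hx => ?_⟩
  by_contra hc
  push Not at hc
  have hx0 : (0 : ℝ) < x := by exact_mod_cast hx.2.2
  have h1 : |(x : ℝ)| ≤ Y := by rwa [abs_of_pos hx0]
  apply hx.2.1
  rw [← hK₀ K hK x h1, hK₀ (K + 1) (by omega) x h1]
  exact hx.1

/-- equidistribution of the reciprocal mass of late levels modulo divisors of powers of the multipliers -/
theorem mass_class {e : ℕ → ℕ} {F F' : Set ℤ} (s : Setup d m r e F F') (i : ℕ) {Q : ℕ}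
    (hQ : Q ∣ PP d m ^ i) (c : ℤ) {ε : ℝ} (hε : 0 < ε) :
    ∃ K₀ : ℕ, ∀ K, K₀ ≤ K → |Q * ms (Cl (Lv d m r e F K) Q c) - ms (Lv d m r e F K)| ≤ ε := by
  classical
  obtain ⟨R, hR0, hR⟩ := s.bound
  obtain ⟨L₀, C, hL₀, hC, hE⟩ := equi_pow s.adm hR0 2 i
  set C' : ℝ := 2 * C * Q + 1 with hC'
  have hC'0 : 0 < C' := by positivity
  set τ : ℝ := max L₀ (C' / ε) with hτ
  have hτ0 : 0 < τ := lt_of_lt_of_le (by linarith) (le_max_left _ _)
  obtain ⟨K₀, hK₀⟩ := Lv_large (d := d) (m := m) (r := r) (e := e) (F := F) (2 * Real.exp τ)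
  refine ⟨K₀, fun K hK => ?_⟩
  have hbig := hK₀ K hK
  obtain ⟨B, hB⟩ := s.Lv_bound (K + 1)
  have hBK : ∀ x ∈ UC d m r e F K, |(x : ℝ)| ≤ B := fun x hx => hB x (UC_mono (Nat.le_succ K) hx)
  set T : ℝ := max B τ with hT
  have hτT : τ ≤ T := le_max_right _ _
  -- finite sets
  have hf1 : (UC d m r e F (K + 1)).Finite := fin_of_bdd hB
  set V : ℕ → Finset ℤ := fun j => hf1.toFinset.filter (fun x => x ∈ UC d m r e F j ∧ 0 < x) with hV
  have hVm : ∀ j, j ≤ K + 1 → ∀ x, x ∈ V j ↔ x ∈ UC d m r e F j ∧ 0 < 1 * x := by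
    intro j hj x
    rw [hV, one_mul]
    simp only [mem_filter, Set.Finite.mem_toFinset]
    constructor
    · rintro ⟨_, h2⟩; exact h2
    · rintro h2; exact ⟨UC_mono hj h2.1, h2⟩
  have hVc : ∀ j, j ≤ K + 1 → ∀ x, x ∈ (V j).filter (fun x => (Q : ℤ) ∣ x - c) ↔
      x ∈ Cl (UC d m r e F j) Q c ∧ 0 < 1 * x := by
    intro j hj x
    rw [mem_filter, hVm j hj]
    unfold Cl
    rw [Set.mem_ofPred_eq]
    tauto
  have hsub : V K ⊆ V (K + 1) := by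
    intro x hx
    rw [hVm K (by omega)] at hx
    rw [hVm (K + 1) le_rfl]
    exact ⟨UC_mono (Nat.le_succ K) hx.1, hx.2⟩
  set L : Finset ℤ := V (K + 1) \ V K with hL
  have hLm : ∀ x, x ∈ L ↔ x ∈ Lv d m r e F K := by
    intro x
    rw [hL, Finset.mem_sdiff, hVm (K + 1) le_rfl, hVm K (by omega), one_mul]
    unfold Lv
    rw [Set.mem_ofPred_eq]
    tauto
  have hLs : Lv d m r e F K = (L : Set ℤ) := by
    ext x; rw [mem_coe, hLm]
  have hLc : Cl (Lv d m r e F K) Q c = ((L.filter (fun x => (Q : ℤ) ∣ x - c) : Finset ℤ) : Set ℤ) := by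
    ext x
    rw [mem_coe, mem_filter, hLm]
    rfl
  rw [hLc, hLs, ms_fin, ms_fin]
  have o1 : (1 : ℤ) = 1 ∨ (1 : ℤ) = -1 := Or.inl rfl
  -- pointwise
  have hpt1 : ∀ t, Fw (UC d m r e F (K + 1)) 1 t - Fw (UC d m r e F K) 1 t = ∑ x ∈ L, gg |(x : ℝ)| t := by
    intro t
    rw [Fw_fin o1 (hVm (K + 1) le_rfl) t, Fw_fin o1 (hVm K (by omega)) t, ← sum_sdiff hsub]
    ring
  have hpt2 : ∀ t, Fw (Cl (UC d m r e F (K + 1)) Q c) 1 t - Fw (Cl (UC d m r e F K) Q c) 1 t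
      = ∑ x ∈ L.filter (fun x => (Q : ℤ) ∣ x - c), gg |(x : ℝ)| t := by
    intro t
    have hsub' : (V K).filter (fun x => (Q : ℤ) ∣ x - c) ⊆ (V (K + 1)).filter (fun x => (Q : ℤ) ∣ x - c) :=
      filter_subset_filter _ hsub
    rw [Fw_fin o1 (hVc (K + 1) le_rfl) t, Fw_fin o1 (hVc K (by omega)) t, ← sum_sdiff hsub']
    have : L.filter (fun x => (Q : ℤ) ∣ x - c) = (V (K + 1)).filter (fun x => (Q : ℤ) ∣ x - c) \
        (V K).filter (fun x => (Q : ℤ) ∣ x - c) := by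
      ext x
      rw [hL]
      simp only [Finset.mem_filter, Finset.mem_sdiff]
      tauto
    rw [this]
    ring
  have hbd : ∀ t, τ ≤ t → |Q * ∑ x ∈ L.filter (fun x => (Q : ℤ) ∣ x - c), gg |(x : ℝ)| t
      - ∑ x ∈ L, gg |(x : ℝ)| t| ≤ C' / t ^ 2 := by
    intro t ht
    have ht0 : 0 < t := by linarith
    have he := Real.exp_pos t
    have hone : ∀ j, |Q * Fw (Cl (UC d m r e F j) Q c) 1 t - Fw (UC d m r e F j) 1 t| ≤ C * Q / t ^ 2 := by
      intro j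
      have h1 := hE (UC d m r e F j) (Syn_UC s.hFF s.hT hR s.hdet j) 1 o1 (Real.exp t) he
        (by rw [Real.log_exp]; exact (le_max_left _ _).trans ht) Q hQ c
      rw [Real.log_exp] at h1
      unfold Fw
      rw [nw_Cl]
      have h2 : (Q : ℝ) * (nw (UC d m r e F j) 1 (Real.exp t) (2 * Real.exp t) Q c / Real.exp t)
          - nw (UC d m r e F j) 1 (Real.exp t) (2 * Real.exp t) 1 0 / Real.exp t
          = (Q * nw (UC d m r e F j) 1 (Real.exp t) (2 * Real.exp t) Q c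
            - nw (UC d m r e F j) 1 (Real.exp t) (2 * Real.exp t) 1 0) / Real.exp t := by ring
      rw [h2, abs_div, abs_of_pos he, div_le_iff₀ he]
      refine h1.trans_eq ?_
      ring
    have h1 := hone (K + 1)
    have h2 := hone K
    rw [← hpt1, ← hpt2]
    have h3 : (Q : ℝ) * (Fw (Cl (UC d m r e F (K + 1)) Q c) 1 t - Fw (Cl (UC d m r e F K) Q c) 1 t)
        - (Fw (UC d m r e F (K + 1)) 1 t - Fw (UC d m r e F K) 1 t)
        = (Q * Fw (Cl (UC d m r e F (K + 1)) Q c) 1 t - Fw (UC d m r e F (K + 1)) 1 t)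
          - (Q * Fw (Cl (UC d m r e F K) Q c) 1 t - Fw (UC d m r e F K) 1 t) := by ring
    rw [h3]
    refine (abs_sub _ _).trans ?_
    have h4 : C' / t ^ 2 = C * Q / t ^ 2 + C * Q / t ^ 2 + 1 / t ^ 2 := by rw [hC']; ring
    have h5 : 0 ≤ 1 / t ^ 2 := by positivity
    rw [h4]; linarith
  -- integration
  have hint : ∀ A : Finset ℤ, IntervalIntegrable (fun t => ∑ x ∈ A, gg |(x : ℝ)| t) volume τ T := by
    intro A
    have e1 : (fun t => ∑ x ∈ A, gg |(x : ℝ)| t) = ∑ x ∈ A, gg |(x : ℝ)| := by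
      funext t; rw [Finset.sum_apply]
    rw [e1]
    exact IntervalIntegrable.sum _ fun x _ => gg_int _ _ _
  have hI : ∀ A : Finset ℤ, A ⊆ L → ∫ t in τ..T, ∑ x ∈ A, gg |(x : ℝ)| t = ∑ x ∈ A, 1 / |(x : ℝ)| := by
    intro A hA
    rw [intervalIntegral.integral_finsetSum fun x _ => gg_int _ _ _]
    refine sum_congr rfl fun x hx => ?_
    have hxL := (hLm x).1 (hA hx)
    have h1 := hbig x hxL
    apply int_gg
    · exact h1.le.trans (le_abs_self _)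
    · have h2 := hB x hxL.1
      have h3 := Real.add_one_le_exp T
      have h4 : B ≤ T := le_max_left _ _
      linarith
  have hfin : Q * ∑ x ∈ L.filter (fun x => (Q : ℤ) ∣ x - c), 1 / |(x : ℝ)| - ∑ x ∈ L, 1 / |(x : ℝ)|
      = ∫ t in τ..T, (Q * ∑ x ∈ L.filter (fun x => (Q : ℤ) ∣ x - c), gg |(x : ℝ)| t
        - ∑ x ∈ L, gg |(x : ℝ)| t) := by
    rw [intervalIntegral.integral_sub ((hint _).const_mul _) (hint _), intervalIntegral.integral_const_mul,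
      hI _ (filter_subset _ _), hI _ subset_rfl]
  rw [hfin]
  have hgi : IntervalIntegrable (fun t : ℝ => C' / t ^ 2) volume τ T := by
    apply ContinuousOn.intervalIntegrable
    intro t ht
    rw [Set.uIcc_of_le hτT] at ht
    have ht0 : t ≠ 0 := by linarith [ht.1]
    exact (continuousAt_const.div (continuousAt_id.pow 2) (pow_ne_zero 2 ht0)).continuousWithinAt
  have hle : |∫ t in τ..T, (Q * ∑ x ∈ L.filter (fun x => (Q : ℤ) ∣ x - c), gg |(x : ℝ)| t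
        - ∑ x ∈ L, gg |(x : ℝ)| t)| ≤ ∫ t in τ..T, C' / t ^ 2 := by
    rw [← Real.norm_eq_abs]
    apply intervalIntegral.norm_integral_le_of_norm_le hτT _ hgi
    refine Filter.Eventually.of_forall fun t ht => ?_
    rw [Real.norm_eq_abs]
    exact hbd t ht.1.le
  refine hle.trans ?_
  rw [Pool.Agent.R623.LM.integral_sq_inv hτ0 hτT]
  have h1 : 0 ≤ C' / T := by
    have : 0 < T := by linarith
    positivity
  have h2 : C' / τ ≤ ε := by
    rw [div_le_iff₀ hτ0]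
    have h3 : C' / ε ≤ τ := le_max_right _ _
    rw [div_le_iff₀ hε] at h3
    linarith
  linarith

end Pool.Agent.R344.FD
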