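import Pool.Agent.R344.FD.A

/-! Residues on the levels of generalised Collatz maps with costs, part B: classes modulo powers of `d`. -/

set_option autoImplicit false

namespace Pool.Agent.R344.FD
open Pool.Agent.H319R3.GC Pool.Agent.H319R3.DN Finset Filter Topology
open Pool.Agent.R623.LM (Bas stay bounded fin_of_bdd abs_eq)
open Pool.Agent.R623.LN (Syn cst UC UC_mono UC_step Syn_UC bounded_UC eventually_UC)

variable {d : ℕ} {m r : ℕ → ℤ}

theorem dvd_num (h : Adm d m r) (x : ℤ) : (d : ℤ) ∣ m (x % d).toNat * x - r (x % d).toNat := by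
  have hd : (0 : ℤ) < d := by have := h.two_le; omega
  have h1 := Int.emod_nonneg x hd.ne'
  have h2 := Int.emod_lt_of_pos x hd
  have h3 : (x % d).toNat < d := by omega
  have h4 := h.adm _ h3
  rw [Int.toNat_of_nonneg h1] at h4
  have h5 : m (x % d).toNat * x - r (x % d).toNat = (m (x % d).toNat * (x % d) - r (x % d).toNat)
      + d * (m (x % d).toNat * (x / d)) := by
    have := Int.emod_add_mul_ediv x d
    linear_combination -(m (x % d).toNat) * this
  rw [h5]
  exact dvd_add h4 (Dvd.intro _ rfl)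

theorem Tm_mul (h : Adm d m r) (x : ℤ) : d * Tm d m r x = m (x % d).toNat * x - r (x % d).toNat := by
  unfold Tm
  exact Int.mul_ediv_cancel' (dvd_num h x)

theorem Cl_fin {S : Set ℤ} (h : S.Finite) (Q : ℕ) (c : ℤ) : (Cl S Q c).Finite :=
  h.subset fun _ hx => hx.1

/-- one step backwards -/
theorem step_back {e : ℕ → ℕ} {F F' : Set ℤ} (s : Setup d m r e F F') (hpos : ∀ i < d, 0 < m i)
    {q : ℕ} (hq : 0 < q) (c : ℤ) {i n : ℕ} (hi : i = (c % d).toNat) (hn : m i = n) {ε : ℝ} (hε : 0 < ε) :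
    ∃ K₀ : ℕ, ∀ K, K₀ ≤ K → |ms (Cl (Lv d m r e F (K + 2)) (d * q) c)
      - n / d * ms (Cl (Lv d m r e F (K + e i)) (n * q) (Tm d m r c))|
        ≤ ε * (n / d * ms (Cl (Lv d m r e F (K + e i)) (n * q) (Tm d m r c))) := by
  classical
  have hd2 := s.adm.two_le
  have hdz : (0 : ℤ) < d := by omega
  have hdR : (0 : ℝ) < d := by exact_mod_cast hdz
  have hd1 : (1 : ℝ) ≤ d := by exact_mod_cast (by omega : 1 ≤ d)
  have hid : i < d := by
    have h1 := Int.emod_nonneg c hdz.ne'
    have h2 := Int.emod_lt_of_pos c hdz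
    omega
  have hic : (i : ℤ) = c % d := by
    rw [hi]; exact Int.toNat_of_nonneg (Int.emod_nonneg c hdz.ne')
  have hnz : (0 : ℤ) < n := by rw [← hn]; exact hpos i hid
  have hnR : (0 : ℝ) < n := by exact_mod_cast hnz
  have hn1 : (1 : ℝ) ≤ n := by exact_mod_cast hnz
  obtain ⟨R, hR0, hR⟩ := s.bound
  set ρ : ℝ := |(r i : ℝ)| with hρ
  have hρ0 : 0 ≤ ρ := abs_nonneg _
  -- threshold for z
  set Y : ℝ := max R (ρ + ρ / ε) with hY
  have hYR : R ≤ Y := le_max_left _ _
  have hYρ : ρ + ρ / ε ≤ Y := le_max_right _ _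
  have hρε : 0 ≤ ρ / ε := by positivity
  obtain ⟨K₁, hK₁⟩ := Lv_large (d := d) (m := m) (r := r) (e := e) (F := F) (d * Y + ρ)
  obtain ⟨K₂, hK₂⟩ := Lv_large (d := d) (m := m) (r := r) (e := e) (F := F) Y
  refine ⟨max K₁ K₂, fun K hK => ?_⟩
  have hX := hK₁ (K + 2) (by have := le_max_left K₁ K₂; omega)
  have hZ := hK₂ (K + e i) (by have := le_max_right K₁ K₂; omega)
  set c' := Tm d m r c with hc'
  have hTc : (d : ℤ) * c' = n * c - r i := by
    have := Tm_mul s.adm c
    rw [← hi, hn] at this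
    exact this
  -- the relation between x and its image
  have hrel : ∀ x y : ℤ, x = c + d * q * y → Tm d m r x = c' + n * q * y ∧ (d : ℤ) ∣ x - i := by
    intro x y hxy
    have h1 : x % d = c % d := by
      rw [hxy, mul_assoc, Int.add_mul_emod_self_left]
    constructor
    · have h2 := Tm_mul s.adm x
      rw [h1, ← hi, hn] at h2
      have h3 : (d : ℤ) * Tm d m r x = d * (c' + n * q * y) := by
        rw [h2, hxy]
        linear_combination -hTc
      exact mul_left_cancel₀ hdz.ne' h3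
    · rw [hic, ← h1]
      exact Int.dvd_self_sub_emod
  have hmem : ∀ x : ℤ, (d : ℤ) ∣ x - i → Tm d m r x ∉ F' →
      ((x ∈ UC d m r e F (K + 2 + 1) ∧ x ∉ UC d m r e F (K + 2)) ↔
        (Tm d m r x ∈ UC d m r e F (K + e i + 1) ∧ Tm d m r x ∉ UC d m r e F (K + e i))) := by
    intro x hx hTx
    have h1 := UC_step s.hFF s.hT K hid (s.he i hid) hx hTx
    have h2 := UC_step s.hFF s.hT (K + 1) hid (s.he i hid) hx hTx
    have e1 : K + 2 + 1 = K + 1 + 2 := by omega
    have e2 : K + e i + 1 = K + 1 + e i := by omega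
    rw [e1, e2, h1, h2]
  set X : Finset ℤ := (Cl_fin (s.Lv_fin (K + 2)) (d * q) c).toFinset with hXd
  set Z : Finset ℤ := (Cl_fin (s.Lv_fin (K + e i)) (n * q) c').toFinset with hZd
  have hXs : Cl (Lv d m r e F (K + 2)) (d * q) c = (X : Set ℤ) := by rw [hXd, Set.Finite.coe_toFinset]
  have hZs : Cl (Lv d m r e F (K + e i)) (n * q) c' = (Z : Set ℤ) := by rw [hZd, Set.Finite.coe_toFinset]
  have hZpos : ∀ z ∈ Z, Y < z ∧ (0 : ℝ) < z := by
    intro z hz
    rw [hZd, Set.Finite.mem_toFinset] at hz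
    have h1 := hZ z hz.1
    exact ⟨h1, by linarith⟩
  have hsum : ∑ x ∈ X, 1 / |(x : ℝ)| = ∑ z ∈ Z, n / (d * z + r i : ℝ) := by
    refine sum_nbij' (fun x => Tm d m r x) (fun z => (d * z + r i) / n) ?_ ?_ ?_ ?_ ?_
    · intro x hx
      rw [hXd, Set.Finite.mem_toFinset] at hx
      rw [hZd, Set.Finite.mem_toFinset]
      obtain ⟨⟨h1, h2, h3⟩, y, hy⟩ := hx
      have hxy : x = c + d * q * y := by push_cast at hy; linarith
      obtain ⟨g1, g2⟩ := hrel x y hxy
      have hbig := hX x ⟨h1, h2, h3⟩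
      have hxd := Tm_mul s.adm x
      have hxm : x % d = c % d := by rw [hxy, mul_assoc, Int.add_mul_emod_self_left]
      rw [hxm, ← hi, hn] at hxd
      have hTbig : Y < (Tm d m r x : ℤ) := by
        have e1 : (d : ℝ) * (Tm d m r x : ℤ) = n * x - r i := by exact_mod_cast hxd
        have e2 : (r i : ℝ) ≤ ρ := le_abs_self _
        have e3 : (1 : ℝ) * x ≤ n * x := by
          apply mul_le_mul_of_nonneg_right hn1
          exact_mod_cast h3.le
        have e4 : (d : ℝ) * Y < d * (Tm d m r x : ℤ) := by linarith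
        exact lt_of_mul_lt_mul_left e4 hdR.le
      have hTF : Tm d m r x ∉ F' := by
        intro hF
        have := hR _ hF
        have := le_abs_self ((Tm d m r x : ℤ) : ℝ)
        linarith
      obtain ⟨k1, k2⟩ := (hmem x g2 hTF).1 ⟨h1, h2⟩
      refine ⟨⟨k1, k2, ?_⟩, ?_⟩
      · have : (0 : ℝ) < (Tm d m r x : ℤ) := by linarith
        exact_mod_cast this
      · rw [g1]
        refine ⟨y, ?_⟩
        push_cast; ring
    · intro z hz
      have hz' := hZpos z hz
      rw [hZd, Set.Finite.mem_toFinset] at hz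
      rw [hXd, Set.Finite.mem_toFinset]
      obtain ⟨⟨h1, h2, h3⟩, y, hy⟩ := hz
      have hzy : z = c' + n * q * y := by push_cast at hy; linarith
      have hx0 : (d * z + r i) / n = c + d * q * y := by
        apply Int.ediv_eq_of_eq_mul_right hnz.ne'
        rw [hzy]
        linear_combination hTc
      beta_reduce
      rw [hx0]
      obtain ⟨g1, g2⟩ := hrel (c + d * q * y) y rfl
      have hTz : Tm d m r (c + d * q * y) = z := by rw [g1, hzy]
      have hzF : z ∉ F' := by
        intro hF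
        have := hR _ hF
        have := le_abs_self (z : ℝ)
        linarith [hz'.1]
      obtain ⟨k1, k2⟩ := (hmem _ g2 (by rw [hTz]; exact hzF)).2 (by rw [hTz]; exact ⟨h1, h2⟩)
      refine ⟨⟨k1, k2, ?_⟩, y, by push_cast; ring⟩
      have e1 : (n : ℤ) * (c + d * q * y) = d * z + r i := by rw [hzy]; linear_combination -hTc
      have e2 : (n : ℝ) * ((c + d * q * y : ℤ) : ℝ) = d * z + r i := by exact_mod_cast e1
      have e3 : -ρ ≤ (r i : ℝ) := neg_abs_le _
      have e4 : (1 : ℝ) * z ≤ d * z := mul_le_mul_of_nonneg_right hd1 hz'.2.le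
      have e5 : (0 : ℝ) < n * ((c + d * q * y : ℤ) : ℝ) := by rw [e2]; linarith [hz'.1]
      have e6 : (0 : ℝ) < ((c + d * q * y : ℤ) : ℝ) := (mul_pos_iff_of_pos_left hnR).1 e5
      exact_mod_cast e6
    · intro x hx
      rw [hXd, Set.Finite.mem_toFinset] at hx
      obtain ⟨_, y, hy⟩ := hx
      have hxy : x = c + d * q * y := by push_cast at hy; linarith
      obtain ⟨g1, _⟩ := hrel x y hxy
      beta_reduce
      rw [g1]
      apply Int.ediv_eq_of_eq_mul_right hnz.ne'
      rw [hxy]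
      linear_combination hTc
    · intro z hz
      rw [hZd, Set.Finite.mem_toFinset] at hz
      obtain ⟨_, y, hy⟩ := hz
      have hzy : z = c' + n * q * y := by push_cast at hy; linarith
      have hx0 : (d * z + r i) / n = c + d * q * y := by
        apply Int.ediv_eq_of_eq_mul_right hnz.ne'
        rw [hzy]
        linear_combination hTc
      beta_reduce
      rw [hx0, (hrel (c + d * q * y) y rfl).1, hzy]
    · intro x hx
      rw [hXd, Set.Finite.mem_toFinset] at hx
      obtain ⟨⟨_, _, h3⟩, y, hy⟩ := hx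
      have hxy : x = c + d * q * y := by push_cast at hy; linarith
      obtain ⟨g1, _⟩ := hrel x y hxy
      have e1 : (d : ℤ) * Tm d m r x + r i = n * x := by
        rw [g1, hxy]; linear_combination hTc
      have e2 : (d : ℝ) * (Tm d m r x : ℤ) + r i = n * x := by exact_mod_cast e1
      have h3' : (0 : ℝ) < x := by exact_mod_cast h3
      beta_reduce
      rw [e2, abs_of_pos h3']
      field_simp
  rw [hXs, hZs, ms_fin, ms_fin, hsum, mul_sum, ← sum_sub_distrib, mul_sum]
  refine (abs_sum_le_sum_abs _ _).trans (sum_le_sum fun z hz => ?_)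
  obtain ⟨hz1, hz0⟩ := hZpos z hz
  rw [abs_of_pos hz0]
  have e3 : -ρ ≤ (r i : ℝ) := neg_abs_le _
  have e4 : (1 : ℝ) * z ≤ d * z := mul_le_mul_of_nonneg_right hd1 hz0.le
  have e5 : (0 : ℝ) < d * z + r i := by linarith
  have e6 : (n : ℝ) / (d * z + r i) - n / d * (1 / z) = -(n / d * (1 / z)) * (r i / (d * z + r i)) := by
    field_simp
    ring
  rw [e6, abs_mul, abs_neg, abs_of_pos (by positivity : (0 : ℝ) < n / d * (1 / z)), mul_comm]
  apply mul_le_mul_of_nonneg_right _ (by positivity)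
  rw [abs_div, abs_of_pos e5, div_le_iff₀ e5]
  have e7 : ρ / ε ≤ d * z + r i := by linarith
  rw [div_le_iff₀ hε] at e7
  linarith

theorem tendsto_of_rel {u v : ℕ → ℝ} {l : ℝ} (hv : Tendsto v atTop (𝓝 l))
    (h : ∀ ε : ℝ, 0 < ε → ∃ K₀ : ℕ, ∀ K, K₀ ≤ K → |u K - v K| ≤ ε * v K) : Tendsto u atTop (𝓝 l) := by
  have h1 : Tendsto (fun K => u K - v K) atTop (𝓝 0) := by
    rw [Metric.tendsto_atTop]
    intro ε hε
    obtain ⟨K₁, hK₁⟩ := (Metric.tendsto_atTop.1 hv) 1 one_pos
    obtain ⟨K₂, hK₂⟩ := h (ε / (2 * (|l| + 1))) (by positivity)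
    refine ⟨max K₁ K₂, fun K hK => ?_⟩
    have e1 := hK₁ K ((le_max_left _ _).trans hK)
    have e2 := hK₂ K ((le_max_right _ _).trans hK)
    rw [Real.dist_eq] at e1 ⊢
    rw [sub_zero]
    have e3 : v K ≤ |l| + 1 := by
      have := (abs_lt.1 e1).2
      have := le_abs_self l
      linarith
    have e4 : ε / (2 * (|l| + 1)) * v K ≤ ε / (2 * (|l| + 1)) * (|l| + 1) :=
      mul_le_mul_of_nonneg_left e3 (by positivity)
    have e5 : ε / (2 * (|l| + 1)) * (|l| + 1) = ε / 2 := by
      have : |l| + 1 ≠ 0 := by positivity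
      field_simp
    linarith
  have h2 := h1.add hv
  simpa using h2

/-- **Equidistribution of late levels** modulo `d ^ a P` -/
theorem residues {e : ℕ → ℕ} {F F' : Set ℤ} (s : Setup d m r e F F') (hpos : ∀ i < d, 0 < m i) {μ : ℝ}
    (hμ : Tendsto (fun K => ms (Lv d m r e F K)) atTop (𝓝 μ)) (a : ℕ) : ∀ (j P : ℕ), P ∣ PP d m ^ j → ∀ c : ℤ,
    Tendsto (fun K => ms (Cl (Lv d m r e F K) (d ^ a * P) c)) atTop (𝓝 (μ / ((d ^ a * P : ℕ) : ℝ))) := by
  induction a with
  | zero =>
    intro j P hP c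
    have hP0 : 0 < P := Nat.pos_of_dvd_of_pos hP (by have := s.adm.big; positivity)
    have hPR : (0 : ℝ) < P := by exact_mod_cast hP0
    rw [pow_zero, one_mul]
    have h1 : Tendsto (fun K => P * ms (Cl (Lv d m r e F K) P c) - ms (Lv d m r e F K)) atTop (𝓝 0) := by
      rw [Metric.tendsto_atTop]
      intro ε hε
      obtain ⟨K₀, hK₀⟩ := mass_class s j hP c (ε := ε / 2) (by positivity)
      refine ⟨K₀, fun K hK => ?_⟩
      rw [Real.dist_eq, sub_zero]
      linarith [hK₀ K hK]
    have h2 := (h1.add hμ).div_const (P : ℝ)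
    rw [zero_add] at h2
    refine h2.congr fun K => ?_
    field_simp
    ring
  | succ a ih =>
    intro j P hP c
    have hdz : (0 : ℤ) < d := by have := s.adm.two_le; omega
    have hd0 : 0 < d := by omega
    have hP0 : 0 < P := Nat.pos_of_dvd_of_pos hP (by have := s.adm.big; positivity)
    set i := (c % d).toNat with hi
    have hid : i < d := by
      have h1 := Int.emod_nonneg c hdz.ne'
      have h2 := Int.emod_lt_of_pos c hdz
      omega
    have hmi := hpos i hid
    set n := (m i).toNat with hnd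
    have hn : m i = n := by rw [hnd, Int.toNat_of_nonneg hmi.le]
    have hn0 : 0 < n := by omega
    have hnR : (0 : ℝ) < n := by exact_mod_cast hn0
    have hdR : (0 : ℝ) < d := by exact_mod_cast hd0
    have hnP : n * P ∣ PP d m ^ (j + 1) := by
      rw [pow_succ, mul_comm (PP d m ^ j)]
      apply mul_dvd_mul _ hP
      have h1 : (m i).natAbs ∣ PP d m := dvd_prod_of_mem _ (mem_range.2 hid)
      have h2 : (m i).natAbs = n := by rw [hn]; simp
      rwa [h2] at h1
    have hI := ih (j + 1) (n * P) hnP (Tm d m r c)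
    have hI2 : Tendsto (fun K => ms (Cl (Lv d m r e F (K + e i)) (n * (d ^ a * P)) (Tm d m r c))) atTop
        (𝓝 (μ / ((d ^ a * (n * P) : ℕ) : ℝ))) := by
      have h1 := (tendsto_add_atTop_iff_nat (f := fun K => ms (Cl (Lv d m r e F K) (d ^ a * (n * P))
        (Tm d m r c))) (e i)).2 hI
      refine h1.congr fun K => ?_
      have : d ^ a * (n * P) = n * (d ^ a * P) := by ring
      rw [this]
    have hI3 := hI2.const_mul ((n : ℝ) / d)
    rw [← tendsto_add_atTop_iff_nat 2]
    have hlim : (n : ℝ) / d * (μ / ((d ^ a * (n * P) : ℕ) : ℝ)) = μ / ((d ^ (a + 1) * P : ℕ) : ℝ) := by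
      have hPR : (0 : ℝ) < P := by exact_mod_cast hP0
      push_cast
      field_simp
      ring
    rw [hlim] at hI3
    refine tendsto_of_rel hI3 fun ε hε => ?_
    obtain ⟨K₀, hK₀⟩ := step_back s hpos (q := d ^ a * P) (by positivity) c hi hn hε
    refine ⟨K₀, fun K hK => ?_⟩
    have h1 := hK₀ K hK
    have : d ^ (a + 1) * P = d * (d ^ a * P) := by ring
    rw [this]
    exact h1

end Pool.Agent.R344.FD
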