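import Pool.Agent.R344.FD.B

/-! Residues on the levels of generalised Collatz maps with costs, part C: all divisors. -/

set_option autoImplicit false

namespace Pool.Agent.R344.FD
open Pool.Agent.H319R3.GC Pool.Agent.H319R3.DN Finset Filter Topology
open Pool.Agent.R623.LN (cst UC)

variable {d : ℕ} {m r : ℕ → ℤ}

theorem ms_split {S : Set ℤ} (hS : S.Finite) {q R : ℕ} (hq : 0 < q) (hR : 0 < R) (c : ℤ) :
    ms (Cl S q c) = ∑ t ∈ range R, ms (Cl S (q * R) (c + q * t)) := by
  classical
  have hqz : (0 : ℤ) < q := by exact_mod_cast hq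
  have hRz : (0 : ℤ) < R := by exact_mod_cast hR
  set A : Finset ℤ := hS.toFinset with hA
  have h1 : ∀ (Q : ℕ) (b : ℤ), ms (Cl S Q b) = ∑ x ∈ A, (if (Q : ℤ) ∣ x - b then 1 / |(x : ℝ)| else 0) := by
    intro Q b
    have : Cl S Q b = ((A.filter (fun x => (Q : ℤ) ∣ x - b) : Finset ℤ) : Set ℤ) := by
      ext x
      rw [mem_coe, mem_filter, hA, Set.Finite.mem_toFinset]
      rfl
    rw [this, ms_fin, sum_filter]
  rw [h1]
  simp only [h1]
  rw [sum_comm]
  refine sum_congr rfl fun x _ => ?_
  by_cases hx : (q : ℤ) ∣ x - c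
  · rw [if_pos hx]
    obtain ⟨y, hy⟩ := hx
    have hmod0 := Int.emod_nonneg y hRz.ne'
    have hmod1 := Int.emod_lt_of_pos y hRz
    rw [sum_eq_single (y % R).toNat]
    · rw [if_pos]
      rw [Int.toNat_of_nonneg hmod0]
      have e1 : x - (c + q * (y % R)) = ((q * R : ℕ) : ℤ) * (y / R) := by
        have := Int.emod_add_mul_ediv y R
        push_cast
        linear_combination hy + (-(q : ℤ)) * this
      rw [e1]
      exact Dvd.intro _ rfl
    · intro t ht hne
      rw [if_neg]
      intro hdv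
      apply hne
      have e1 : x - (c + q * t) = q * (y - t) := by linear_combination hy
      rw [e1, Nat.cast_mul] at hdv
      have h2 : (R : ℤ) ∣ y - t := Int.dvd_of_mul_dvd_mul_left hqz.ne' hdv
      rw [mem_range] at ht
      obtain ⟨v, hv⟩ := h2
      have h3 : y % R = t := by
        rw [show y = t + R * v by linarith, Int.add_mul_emod_self_left,
          Int.emod_eq_of_lt (Int.natCast_nonneg t) (by exact_mod_cast ht)]
      omega
    · intro hn
      exfalso
      apply hn
      rw [mem_range]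
      omega
  · rw [if_neg hx]
    symm
    apply sum_eq_zero
    intro t _
    rw [if_neg]
    intro hdv
    apply hx
    have h2 : (q : ℤ) ∣ x - (c + q * t) := (Dvd.intro (R : ℤ) (by push_cast; ring)).trans hdv
    have h3 : x - c = (x - (c + q * t)) + q * t := by ring
    rw [h3]
    exact dvd_add h2 (Dvd.intro _ rfl)

/-- **Equidistribution of late levels** modulo all divisors of `(d P) ^ j`, `P` the product of the multipliers -/
theorem residues_dvd {e : ℕ → ℕ} {F F' : Set ℤ} (s : Setup d m r e F F') (hpos : ∀ i < d, 0 < m i) {μ : ℝ}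
    (hμ : Tendsto (fun K => ms (Lv d m r e F K)) atTop (𝓝 μ)) {a j P q : ℕ} (hP : P ∣ PP d m ^ j)
    (hq : q ∣ d ^ a * P) (c : ℤ) :
    Tendsto (fun K => ms (Cl (Lv d m r e F K) q c)) atTop (𝓝 (μ / q)) := by
  have hd0 : 0 < d := by have := s.adm.two_le; omega
  have hP0 : 0 < P := Nat.pos_of_dvd_of_pos hP (by have := s.adm.big; positivity)
  have hQ0 : 0 < d ^ a * P := by positivity
  obtain ⟨R, hR⟩ := hq
  have hq0 : 0 < q := Nat.pos_of_mul_pos_right (hR ▸ hQ0) |> fun _ => by
    rcases Nat.eq_zero_or_pos q with h0 | h0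
    · rw [h0] at hR; omega
    · exact h0
  have hR0 : 0 < R := by
    rcases Nat.eq_zero_or_pos R with h0 | h0
    · rw [h0] at hR; omega
    · exact h0
  have h1 : ∀ K, ms (Cl (Lv d m r e F K) q c) = ∑ t ∈ range R, ms (Cl (Lv d m r e F K) (q * R) (c + q * t)) :=
    fun K => ms_split (s.Lv_fin K) hq0 hR0 c
  simp only [h1]
  have h2 : μ / q = ∑ _t ∈ range R, μ / ((d ^ a * P : ℕ) : ℝ) := by
    rw [sum_const, card_range, nsmul_eq_mul, hR]
    have : (0 : ℝ) < q := by exact_mod_cast hq0
    have : (0 : ℝ) < R := by exact_mod_cast hR0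
    push_cast
    field_simp
  rw [h2]
  refine tendsto_finsetSum _ fun t _ => ?_
  rw [← hR]
  exact residues s hpos hμ a j P hP _

end Pool.Agent.R344.FD
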