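import Pool.Agent.R344.FD.C

/-! Residues on the levels of generalised Collatz maps with costs, part D: both signs. -/

set_option autoImplicit false

namespace Pool.Agent.R344.FD
open Pool.Agent.H319R3.GC Pool.Agent.H319R3.DN Finset Filter Topology MeasureTheory
open Pool.Agent.R623.LM (Bas stay bounded fin_of_bdd abs_eq gg gg_int int_gg Fw_fin Fw_int)
open Pool.Agent.R623.LN (Syn equi_of cst UC UC_mono UC_step Syn_UC bounded_UC eventually_UC)

variable {d : ℕ} {m r : ℕ → ℤ}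

/-- the integers of sign `σ` on the level number `K + 1` -/
def Ls (σ : ℤ) (d : ℕ) (m r : ℕ → ℤ) (e : ℕ → ℕ) (F : Set ℤ) (K : ℕ) : Set ℤ :=
  {x | x ∈ UC d m r e F (K + 1) ∧ x ∉ UC d m r e F K ∧ 0 < σ * x}

/-- the integers on the level number `K + 1` -/
def L2 (d : ℕ) (m r : ℕ → ℤ) (e : ℕ → ℕ) (F : Set ℤ) (K : ℕ) : Set ℤ :=
  {x | x ∈ UC d m r e F (K + 1) ∧ x ∉ UC d m r e F K}

/-- all elements of the late levels are large -/
theorem L2_large {e : ℕ → ℕ} {F : Set ℤ} (Y : ℝ) : ∃ K₀ : ℕ, ∀ K, K₀ ≤ K → ∀ x ∈ L2 d m r e F K,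
    Y < |(x : ℝ)| := by
  obtain ⟨K₀, hK₀⟩ := eventually_UC (d := d) (m := m) (r := r) (e := e) (F := F) Y
  refine ⟨K₀, fun K hK x hx => ?_⟩
  by_contra hc
  push Not at hc
  apply hx.2
  rw [← hK₀ K hK x hc, hK₀ (K + 1) (by omega) x hc]
  exact hx.1

theorem Ls_large {σ : ℤ} (_ : σ = 1 ∨ σ = -1) {e : ℕ → ℕ} {F : Set ℤ} (Y : ℝ) :
    ∃ K₀ : ℕ, ∀ K, K₀ ≤ K → ∀ x ∈ Ls σ d m r e F K, Y < |(x : ℝ)| := by
  obtain ⟨K₀, hK₀⟩ := L2_large (d := d) (m := m) (r := r) (e := e) (F := F) Y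
  exact ⟨K₀, fun K hK x hx => hK₀ K hK x ⟨hx.1, hx.2.1⟩⟩

theorem Setup.L2_fin {e : ℕ → ℕ} {F F' : Set ℤ} (s : Setup d m r e F F') (K : ℕ) :
    (L2 d m r e F K).Finite := by
  obtain ⟨B, hB⟩ := s.Lv_bound (K + 1)
  exact fin_of_bdd (B := B) (fun x hx => hB x hx.1)

/-- equidistribution of the reciprocal mass of late levels modulo divisors of powers of the multipliers -/
theorem mass_class_s {σ : ℤ} (hσ : σ = 1 ∨ σ = -1) {e : ℕ → ℕ} {F F' : Set ℤ} (s : Setup d m r e F F') (i : ℕ) {Q : ℕ}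
    (hQ : Q ∣ PP d m ^ i) (c : ℤ) {ε : ℝ} (hε : 0 < ε) :
    ∃ K₀ : ℕ, ∀ K, K₀ ≤ K → |Q * ms (Cl (Ls σ d m r e F K) Q c) - ms (Ls σ d m r e F K)| ≤ ε := by
  classical
  obtain ⟨R, hR0, hR⟩ := s.bound
  obtain ⟨L₀, C, hL₀, hC, hE⟩ := equi_pow s.adm hR0 2 i
  set C' : ℝ := 2 * C * Q + 1 with hC'
  have hC'0 : 0 < C' := by positivity
  set τ : ℝ := max L₀ (C' / ε) with hτ
  have hτ0 : 0 < τ := lt_of_lt_of_le (by linarith) (le_max_left _ _)
  obtain ⟨K₀, hK₀⟩ := Ls_large (σ := σ) hσ (d := d) (m := m) (r := r) (e := e) (F := F) (2 * Real.exp τ)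
  refine ⟨K₀, fun K hK => ?_⟩
  have hbig := hK₀ K hK
  obtain ⟨B, hB⟩ := s.Lv_bound (K + 1)
  have hBK : ∀ x ∈ UC d m r e F K, |(x : ℝ)| ≤ B := fun x hx => hB x (UC_mono (Nat.le_succ K) hx)
  set T : ℝ := max B τ with hT
  have hτT : τ ≤ T := le_max_right _ _
  -- finite sets
  have hf1 : (UC d m r e F (K + 1)).Finite := fin_of_bdd hB
  set V : ℕ → Finset ℤ := fun j => hf1.toFinset.filter (fun x => x ∈ UC d m r e F j ∧ 0 < σ * x) with hV
  have hVm : ∀ j, j ≤ K + 1 → ∀ x, x ∈ V j ↔ x ∈ UC d m r e F j ∧ 0 < σ * x := by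
    intro j hj x
    rw [hV]
    simp only [mem_filter, Set.Finite.mem_toFinset]
    constructor
    · rintro ⟨_, h2⟩; exact h2
    · rintro h2; exact ⟨UC_mono hj h2.1, h2⟩
  have hVc : ∀ j, j ≤ K + 1 → ∀ x, x ∈ (V j).filter (fun x => (Q : ℤ) ∣ x - c) ↔
      x ∈ Cl (UC d m r e F j) Q c ∧ 0 < σ * x := by
    intro j hj x
    rw [mem_filter, hVm j hj]
    unfold Cl
    rw [Set.mem_ofPred_eq]
    tauto
  have hsub : V K ⊆ V (K + 1) := by
    intro x hx
    rw [hVm K (by omega)] at hx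
    rw [hVm (K + 1) le_rfl]
    exact ⟨UC_mono (Nat.le_succ K) hx.1, hx.2⟩
  set L : Finset ℤ := V (K + 1) \ V K with hL
  have hLm : ∀ x, x ∈ L ↔ x ∈ Ls σ d m r e F K := by
    intro x
    rw [hL, Finset.mem_sdiff, hVm (K + 1) le_rfl, hVm K (by omega)]
    unfold Ls
    rw [Set.mem_ofPred_eq]
    tauto
  have hLs : Ls σ d m r e F K = (L : Set ℤ) := by
    ext x; rw [mem_coe, hLm]
  have hLc : Cl (Ls σ d m r e F K) Q c = ((L.filter (fun x => (Q : ℤ) ∣ x - c) : Finset ℤ) : Set ℤ) := by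
    ext x
    rw [mem_coe, mem_filter, hLm]
    rfl
  rw [hLc, hLs, ms_fin, ms_fin]
  -- pointwise
  have hpt1 : ∀ t, Fw (UC d m r e F (K + 1)) σ t - Fw (UC d m r e F K) σ t = ∑ x ∈ L, gg |(x : ℝ)| t := by
    intro t
    rw [Fw_fin hσ (hVm (K + 1) le_rfl) t, Fw_fin hσ (hVm K (by omega)) t, ← sum_sdiff hsub]
    ring
  have hpt2 : ∀ t, Fw (Cl (UC d m r e F (K + 1)) Q c) σ t - Fw (Cl (UC d m r e F K) Q c) σ t
      = ∑ x ∈ L.filter (fun x => (Q : ℤ) ∣ x - c), gg |(x : ℝ)| t := by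
    intro t
    have hsub' : (V K).filter (fun x => (Q : ℤ) ∣ x - c) ⊆ (V (K + 1)).filter (fun x => (Q : ℤ) ∣ x - c) :=
      filter_subset_filter _ hsub
    rw [Fw_fin hσ (hVc (K + 1) le_rfl) t, Fw_fin hσ (hVc K (by omega)) t, ← sum_sdiff hsub']
    have : L.filter (fun x => (Q : ℤ) ∣ x - c) = (V (K + 1)).filter (fun x => (Q : ℤ) ∣ x - c) \
        (V K).filter (fun x => (Q : ℤ) ∣ x - c) := by
      ext x
      rw [hL]
      simp only [Finset.mem_filter, Finset.mem_sdiff]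
      tauto
    rw [this]
    ring
  have hbd : ∀ t, τ ≤ t → |Q * ∑ x ∈ L.filter (fun x => (Q : ℤ) ∣ x - c), gg |(x : ℝ)| t
      - ∑ x ∈ L, gg |(x : ℝ)| t| ≤ C' / t ^ 2 := by
    intro t ht
    have ht0 : 0 < t := by linarith
    have he := Real.exp_pos t
    have hone : ∀ j, |Q * Fw (Cl (UC d m r e F j) Q c) σ t - Fw (UC d m r e F j) σ t| ≤ C * Q / t ^ 2 := by
      intro j
      have h1 := hE (UC d m r e F j) (Syn_UC s.hFF s.hT hR s.hdet j) σ hσ (Real.exp t) he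
        (by rw [Real.log_exp]; exact (le_max_left _ _).trans ht) Q hQ c
      rw [Real.log_exp] at h1
      unfold Fw
      rw [nw_Cl]
      have h2 : (Q : ℝ) * (nw (UC d m r e F j) σ (Real.exp t) (2 * Real.exp t) Q c / Real.exp t)
          - nw (UC d m r e F j) σ (Real.exp t) (2 * Real.exp t) 1 0 / Real.exp t
          = (Q * nw (UC d m r e F j) σ (Real.exp t) (2 * Real.exp t) Q c
            - nw (UC d m r e F j) σ (Real.exp t) (2 * Real.exp t) 1 0) / Real.exp t := by ring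
      rw [h2, abs_div, abs_of_pos he, div_le_iff₀ he]
      refine h1.trans_eq ?_
      ring
    have h1 := hone (K + 1)
    have h2 := hone K
    rw [← hpt1, ← hpt2]
    have h3 : (Q : ℝ) * (Fw (Cl (UC d m r e F (K + 1)) Q c) σ t - Fw (Cl (UC d m r e F K) Q c) σ t)
        - (Fw (UC d m r e F (K + 1)) σ t - Fw (UC d m r e F K) σ t)
        = (Q * Fw (Cl (UC d m r e F (K + 1)) Q c) σ t - Fw (UC d m r e F (K + 1)) σ t)
          - (Q * Fw (Cl (UC d m r e F K) Q c) σ t - Fw (UC d m r e F K) σ t) := by ring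
    rw [h3]
    refine (abs_sub _ _).trans ?_
    have h4 : C' / t ^ 2 = C * Q / t ^ 2 + C * Q / t ^ 2 + 1 / t ^ 2 := by rw [hC']; ring
    have h5 : 0 ≤ 1 / t ^ 2 := by positivity
    rw [h4]; linarith
  -- integration
  have hint : ∀ A : Finset ℤ, IntervalIntegrable (fun t => ∑ x ∈ A, gg |(x : ℝ)| t) volume τ T := by
    intro A
    have e1 : (fun t => ∑ x ∈ A, gg |(x : ℝ)| t) = ∑ x ∈ A, gg |(x : ℝ)| := by
      funext t; rw [Finset.sum_apply]
    rw [e1]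
    exact IntervalIntegrable.sum _ fun x _ => gg_int _ _ _
  have hI : ∀ A : Finset ℤ, A ⊆ L → ∫ t in τ..T, ∑ x ∈ A, gg |(x : ℝ)| t = ∑ x ∈ A, 1 / |(x : ℝ)| := by
    intro A hA
    rw [intervalIntegral.integral_finsetSum fun x _ => gg_int _ _ _]
    refine sum_congr rfl fun x hx => ?_
    have hxL := (hLm x).1 (hA hx)
    have h1 := hbig x hxL
    apply int_gg
    · exact h1.le
    · have h2 := hB x hxL.1
      have h3 := Real.add_one_le_exp T
      have h4 : B ≤ T := le_max_left _ _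
      linarith
  have hfin : Q * ∑ x ∈ L.filter (fun x => (Q : ℤ) ∣ x - c), 1 / |(x : ℝ)| - ∑ x ∈ L, 1 / |(x : ℝ)|
      = ∫ t in τ..T, (Q * ∑ x ∈ L.filter (fun x => (Q : ℤ) ∣ x - c), gg |(x : ℝ)| t
        - ∑ x ∈ L, gg |(x : ℝ)| t) := by
    rw [intervalIntegral.integral_sub ((hint _).const_mul _) (hint _), intervalIntegral.integral_const_mul,
      hI _ (filter_subset _ _), hI _ subset_rfl]
  rw [hfin]
  have hgi : IntervalIntegrable (fun t : ℝ => C' / t ^ 2) volume τ T := by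
    apply ContinuousOn.intervalIntegrable
    intro t ht
    rw [Set.uIcc_of_le hτT] at ht
    have ht0 : t ≠ 0 := by linarith [ht.1]
    exact (continuousAt_const.div (continuousAt_id.pow 2) (pow_ne_zero 2 ht0)).continuousWithinAt
  have hle : |∫ t in τ..T, (Q * ∑ x ∈ L.filter (fun x => (Q : ℤ) ∣ x - c), gg |(x : ℝ)| t
        - ∑ x ∈ L, gg |(x : ℝ)| t)| ≤ ∫ t in τ..T, C' / t ^ 2 := by
    rw [← Real.norm_eq_abs]
    apply intervalIntegral.norm_integral_le_of_norm_le hτT _ hgi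
    refine Filter.Eventually.of_forall fun t ht => ?_
    rw [Real.norm_eq_abs]
    exact hbd t ht.1.le
  refine hle.trans ?_
  rw [Pool.Agent.R623.LM.integral_sq_inv hτ0 hτT]
  have h1 : 0 ≤ C' / T := by
    have : 0 < T := by linarith
    positivity
  have h2 : C' / τ ≤ ε := by
    rw [div_le_iff₀ hτ0]
    have h3 : C' / ε ≤ τ := le_max_right _ _
    rw [div_le_iff₀ hε] at h3
    linarith
  linarith


end Pool.Agent.R344.FD
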