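import Pool.Agent.R344.FD.D

/-! Residues on the levels of generalised Collatz maps with costs, part E: both signs, classes modulo powers
of `d`. -/

set_option autoImplicit false

namespace Pool.Agent.R344.FD
open Pool.Agent.H319R3.GC Pool.Agent.H319R3.DN Finset Filter Topology
open Pool.Agent.R623.LM (Bas stay bounded fin_of_bdd abs_eq)
open Pool.Agent.R623.LN (Syn cst UC UC_mono UC_step Syn_UC bounded_UC eventually_UC)

variable {d : ℕ} {m r : ℕ → ℤ}

/-- one step backwards -/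
theorem step_back2 {e : ℕ → ℕ} {F F' : Set ℤ} (s : Setup d m r e F F')
    {q : ℕ} (c : ℤ) {i n : ℕ} (hi : i = (c % d).toNat) (hn : (m i).natAbs = n) {ε : ℝ} (hε : 0 < ε) :
    ∃ K₀ : ℕ, ∀ K, K₀ ≤ K → |ms (Cl (L2 d m r e F (K + 2)) (d * q) c)
      - n / d * ms (Cl (L2 d m r e F (K + e i)) (n * q) (Tm d m r c))|
        ≤ ε * (n / d * ms (Cl (L2 d m r e F (K + e i)) (n * q) (Tm d m r c))) := by
  classical
  have hd2 := s.adm.two_le
  have hdz : (0 : ℤ) < d := by omega
  have hdR : (0 : ℝ) < d := by exact_mod_cast hdz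
  have hd1 : (1 : ℝ) ≤ d := by exact_mod_cast (by omega : 1 ≤ d)
  have hid : i < d := by
    have h1 := Int.emod_nonneg c hdz.ne'
    have h2 := Int.emod_lt_of_pos c hdz
    omega
  have hic : (i : ℤ) = c % d := by
    rw [hi]; exact Int.toNat_of_nonneg (Int.emod_nonneg c hdz.ne')
  have hmz : m i ≠ 0 := t7_ne s.adm hid
  obtain ⟨σ, hσ, hmn⟩ : ∃ σ : ℤ, (σ = 1 ∨ σ = -1) ∧ m i = σ * n := by
    rcases Int.natAbs_eq (m i) with h | h
    · exact ⟨1, Or.inl rfl, by rw [one_mul, ← hn]; exact h⟩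
    · exact ⟨-1, Or.inr rfl, by rw [neg_one_mul, ← hn]; exact h⟩
  have hσσ : σ * σ = 1 := by rcases hσ with h | h <;> rw [h] <;> norm_num
  have hnz : (0 : ℤ) < n := by omega
  have hnR : (0 : ℝ) < n := by exact_mod_cast hnz
  have hn1 : (1 : ℝ) ≤ n := by exact_mod_cast hnz
  have habs : |(m i : ℝ)| = n := by
    rw [← hn, Nat.cast_natAbs, Int.cast_abs]
  obtain ⟨R, hR0, hR⟩ := s.bound
  set ρ : ℝ := |(r i : ℝ)| with hρ
  have hρ0 : 0 ≤ ρ := abs_nonneg _
  set Y : ℝ := max R (ρ + ρ / ε) with hY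
  have hYR : R ≤ Y := le_max_left _ _
  have hYρ : ρ + ρ / ε ≤ Y := le_max_right _ _
  have hρε : 0 ≤ ρ / ε := by positivity
  obtain ⟨K₁, hK₁⟩ := L2_large (d := d) (m := m) (r := r) (e := e) (F := F) (d * Y + ρ)
  obtain ⟨K₂, hK₂⟩ := L2_large (d := d) (m := m) (r := r) (e := e) (F := F) Y
  refine ⟨max K₁ K₂, fun K hK => ?_⟩
  have hX := hK₁ (K + 2) (by have := le_max_left K₁ K₂; omega)
  have hZ := hK₂ (K + e i) (by have := le_max_right K₁ K₂; omega)
  set c' := Tm d m r c with hc'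
  have hTc : (d : ℤ) * c' = m i * c - r i := by
    have := Tm_mul s.adm c
    rw [← hi] at this
    exact this
  have hrel : ∀ x y : ℤ, x = c + d * q * y → Tm d m r x = c' + m i * q * y ∧ (d : ℤ) ∣ x - i ∧
      (d : ℤ) * Tm d m r x = m i * x - r i := by
    intro x y hxy
    have h1 : x % d = c % d := by
      rw [hxy, mul_assoc, Int.add_mul_emod_self_left]
    have h2 := Tm_mul s.adm x
    rw [h1, ← hi] at h2
    refine ⟨?_, ?_, h2⟩
    · have h3 : (d : ℤ) * Tm d m r x = d * (c' + m i * q * y) := by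
        rw [h2, hxy]
        linear_combination -hTc
      exact mul_left_cancel₀ hdz.ne' h3
    · rw [hic, ← h1]
      exact Int.dvd_self_sub_emod
  have hmem : ∀ x : ℤ, (d : ℤ) ∣ x - i → Tm d m r x ∉ F' →
      ((x ∈ UC d m r e F (K + 2 + 1) ∧ x ∉ UC d m r e F (K + 2)) ↔
        (Tm d m r x ∈ UC d m r e F (K + e i + 1) ∧ Tm d m r x ∉ UC d m r e F (K + e i))) := by
    intro x hx hTx
    have h1 := UC_step s.hFF s.hT K hid (s.he i hid) hx hTx
    have h2 := UC_step s.hFF s.hT (K + 1) hid (s.he i hid) hx hTx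
    have e1 : K + 2 + 1 = K + 1 + 2 := by omega
    have e2 : K + e i + 1 = K + 1 + e i := by omega
    rw [e1, e2, h1, h2]
  set X : Finset ℤ := (Cl_fin (s.L2_fin (K + 2)) (d * q) c).toFinset with hXd
  set Z : Finset ℤ := (Cl_fin (s.L2_fin (K + e i)) (n * q) c').toFinset with hZd
  have hXs : Cl (L2 d m r e F (K + 2)) (d * q) c = (X : Set ℤ) := by rw [hXd, Set.Finite.coe_toFinset]
  have hZs : Cl (L2 d m r e F (K + e i)) (n * q) c' = (Z : Set ℤ) := by rw [hZd, Set.Finite.coe_toFinset]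
  have hZpos : ∀ z ∈ Z, Y < |(z : ℝ)| := by
    intro z hz
    rw [hZd, Set.Finite.mem_toFinset] at hz
    exact hZ z hz.1
  have hZrel : ∀ z ∈ Z, ∃ y : ℤ, z = c' + m i * q * y := by
    intro z hz
    rw [hZd, Set.Finite.mem_toFinset] at hz
    obtain ⟨_, y, hy⟩ := hz
    refine ⟨σ * y, ?_⟩
    push_cast at hy
    rw [hmn]
    linear_combination hy - (n : ℤ) * q * y * hσσ
  have hsum : ∑ x ∈ X, 1 / |(x : ℝ)| = ∑ z ∈ Z, n / |(d * z + r i : ℝ)| := by
    refine sum_nbij' (fun x => Tm d m r x) (fun z => (d * z + r i) / m i) ?_ ?_ ?_ ?_ ?_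
    · intro x hx
      rw [hXd, Set.Finite.mem_toFinset] at hx
      rw [hZd, Set.Finite.mem_toFinset]
      obtain ⟨⟨h1, h2⟩, y, hy⟩ := hx
      have hxy : x = c + d * q * y := by push_cast at hy; linarith
      obtain ⟨g1, g2, g3⟩ := hrel x y hxy
      have hbig := hX x ⟨h1, h2⟩
      have hTbig : Y < |((Tm d m r x : ℤ) : ℝ)| := by
        have e1 : (d : ℝ) * (Tm d m r x : ℤ) = m i * x - r i := by exact_mod_cast g3
        have e2 : |(d : ℝ) * (Tm d m r x : ℤ)| = d * |((Tm d m r x : ℤ) : ℝ)| := by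
          rw [abs_mul, abs_of_pos hdR]
        have e3 : n * |(x : ℝ)| - ρ ≤ |(m i : ℝ) * x - r i| := by
          have := abs_sub_abs_le_abs_sub ((m i : ℝ) * x) (r i : ℝ)
          rwa [abs_mul, habs] at this
        have e4 : 1 * |(x : ℝ)| ≤ n * |(x : ℝ)| := mul_le_mul_of_nonneg_right hn1 (abs_nonneg _)
        have e5 : (d : ℝ) * Y < d * |((Tm d m r x : ℤ) : ℝ)| := by
          rw [← e2, e1]; linarith
        exact lt_of_mul_lt_mul_left e5 hdR.le
      have hTF : Tm d m r x ∉ F' := by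
        intro hF
        have := hR _ hF
        linarith
      obtain ⟨k1, k2⟩ := (hmem x g2 hTF).1 ⟨h1, h2⟩
      refine ⟨⟨k1, k2⟩, ?_⟩
      rw [g1, hmn]
      refine ⟨σ * y, ?_⟩
      push_cast; ring
    · intro z hz
      obtain ⟨y, hzy⟩ := hZrel z hz
      have hz' := hZpos z hz
      rw [hZd, Set.Finite.mem_toFinset] at hz
      rw [hXd, Set.Finite.mem_toFinset]
      obtain ⟨⟨h1, h2⟩, _⟩ := hz
      have hx0 : (d * z + r i) / m i = c + d * q * y := by
        apply Int.ediv_eq_of_eq_mul_right hmz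
        rw [hzy]
        linear_combination hTc
      beta_reduce
      rw [hx0]
      obtain ⟨g1, g2, _⟩ := hrel (c + d * q * y) y rfl
      have hTz : Tm d m r (c + d * q * y) = z := by rw [g1, hzy]
      have hzF : z ∉ F' := by
        intro hF
        have := hR _ hF
        linarith
      obtain ⟨k1, k2⟩ := (hmem _ g2 (by rw [hTz]; exact hzF)).2 (by rw [hTz]; exact ⟨h1, h2⟩)
      exact ⟨⟨k1, k2⟩, y, by push_cast; ring⟩
    · intro x hx
      rw [hXd, Set.Finite.mem_toFinset] at hx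
      obtain ⟨_, y, hy⟩ := hx
      have hxy : x = c + d * q * y := by push_cast at hy; linarith
      obtain ⟨g1, _, _⟩ := hrel x y hxy
      beta_reduce
      rw [g1]
      apply Int.ediv_eq_of_eq_mul_right hmz
      rw [hxy]
      linear_combination hTc
    · intro z hz
      obtain ⟨y, hzy⟩ := hZrel z hz
      have hx0 : (d * z + r i) / m i = c + d * q * y := by
        apply Int.ediv_eq_of_eq_mul_right hmz
        rw [hzy]
        linear_combination hTc
      beta_reduce
      rw [hx0, (hrel (c + d * q * y) y rfl).1, hzy]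
    · intro x hx
      rw [hXd, Set.Finite.mem_toFinset] at hx
      have hbig := hX x hx.1
      obtain ⟨_, y, hy⟩ := hx
      have hxy : x = c + d * q * y := by push_cast at hy; linarith
      obtain ⟨g1, _, g3⟩ := hrel x y hxy
      have e2 : (d : ℝ) * (Tm d m r x : ℤ) + r i = m i * x := by
        have : (d : ℝ) * (Tm d m r x : ℤ) = m i * x - r i := by exact_mod_cast g3
        linarith
      have h0 : 0 < |(x : ℝ)| := by
        have h1 : 0 ≤ (d : ℝ) * Y := mul_nonneg hdR.le (hR0.trans hYR)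
        linarith
      beta_reduce
      rw [e2, abs_mul, habs]
      field_simp
  rw [hXs, hZs, ms_fin, ms_fin, hsum, mul_sum, ← sum_sub_distrib, mul_sum]
  refine (abs_sum_le_sum_abs _ _).trans (sum_le_sum fun z hz => ?_)
  have hz1 := hZpos z hz
  have hz0 : 0 < |(z : ℝ)| := by linarith
  set A : ℝ := |(d * z + r i : ℝ)| with hA
  have e1 : |(d : ℝ) * z| = d * |(z : ℝ)| := by rw [abs_mul, abs_of_pos hdR]
  have e3 : d * |(z : ℝ)| - ρ ≤ A := by
    have := abs_sub_abs_le_abs_sub ((d : ℝ) * z) (-(r i : ℝ))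
    rw [abs_neg, e1, sub_neg_eq_add] at this
    exact this
  have e3' : A ≤ d * |(z : ℝ)| + ρ := by
    have := abs_add_le ((d : ℝ) * z) (r i : ℝ)
    rwa [e1] at this
  have e4 : 1 * |(z : ℝ)| ≤ d * |(z : ℝ)| := mul_le_mul_of_nonneg_right hd1 hz0.le
  have e5 : 0 < A := by linarith
  have e6 : (n : ℝ) / A - n / d * (1 / |(z : ℝ)|) = (n / d * (1 / |(z : ℝ)|)) * ((d * |(z : ℝ)| - A) / A) := by
    field_simp
  rw [e6, abs_mul, abs_of_pos (by positivity : (0 : ℝ) < n / d * (1 / |(z : ℝ)|)), mul_comm]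
  apply mul_le_mul_of_nonneg_right _ (by positivity)
  rw [abs_div, abs_of_pos e5, div_le_iff₀ e5]
  have e7 : ρ / ε ≤ A := by linarith
  rw [div_le_iff₀ hε] at e7
  have e8 : |d * |(z : ℝ)| - A| ≤ ρ := by
    rw [abs_le]; constructor <;> linarith
  linarith

theorem split2 {e : ℕ → ℕ} {F F' : Set ℤ} (s : Setup d m r e F F') : ∃ K₀ : ℕ, ∀ K, K₀ ≤ K →
    ∀ (Q : ℕ) (c : ℤ), ms (Cl (L2 d m r e F K) Q c)
      = ms (Cl (Ls 1 d m r e F K) Q c) + ms (Cl (Ls (-1) d m r e F K) Q c) := by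
  classical
  obtain ⟨K₀, hK₀⟩ := L2_large (d := d) (m := m) (r := r) (e := e) (F := F) 0
  refine ⟨K₀, fun K hK Q c => ?_⟩
  set A : Finset ℤ := (Cl_fin (s.L2_fin K) Q c).toFinset with hA
  have h0 : Cl (L2 d m r e F K) Q c = (A : Set ℤ) := by rw [hA, Set.Finite.coe_toFinset]
  have h1 : ∀ σ : ℤ, Cl (Ls σ d m r e F K) Q c = ((A.filter (fun x => 0 < σ * x) : Finset ℤ) : Set ℤ) := by
    intro σ
    ext x
    rw [mem_coe, mem_filter, hA, Set.Finite.mem_toFinset]
    unfold Cl Ls L2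
    simp only [Set.mem_ofPred_eq]
    tauto
  rw [h0, h1, h1, ms_fin, ms_fin, ms_fin, sum_filter, sum_filter, ← sum_add_distrib]
  refine sum_congr rfl fun x hx => ?_
  rw [hA, Set.Finite.mem_toFinset] at hx
  have hx0 := hK₀ K hK x hx.1
  have hne : x ≠ 0 := by
    rintro rfl
    simp at hx0
  rcases lt_or_gt_of_ne hne with h | h
  · rw [if_neg (by omega), if_pos (by omega), zero_add]
  · rw [if_pos (by omega), if_neg (by omega), add_zero]

theorem Cl_one (S : Set ℤ) : Cl S 1 0 = S := by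
  unfold Cl
  ext x
  simp

/-- **Equidistribution of late levels**, both signs, modulo `d ^ a P` -/
theorem residues2 {e : ℕ → ℕ} {F F' : Set ℤ} (s : Setup d m r e F F') {μ : ℝ}
    (hμ : Tendsto (fun K => ms (L2 d m r e F K)) atTop (𝓝 μ)) (a : ℕ) : ∀ (j P : ℕ), P ∣ PP d m ^ j → ∀ c : ℤ,
    Tendsto (fun K => ms (Cl (L2 d m r e F K) (d ^ a * P) c)) atTop (𝓝 (μ / ((d ^ a * P : ℕ) : ℝ))) := by
  induction a with
  | zero =>
    intro j P hP c
    have hP0 : 0 < P := Nat.pos_of_dvd_of_pos hP (by have := s.adm.big; positivity)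
    have hPR : (0 : ℝ) < P := by exact_mod_cast hP0
    rw [pow_zero, one_mul]
    have h1 : Tendsto (fun K => P * ms (Cl (L2 d m r e F K) P c) - ms (L2 d m r e F K)) atTop (𝓝 0) := by
      rw [Metric.tendsto_atTop]
      intro ε hε
      obtain ⟨K₀, hK₀⟩ := mass_class_s (σ := 1) (Or.inl rfl) s j hP c (ε := ε / 4) (by positivity)
      obtain ⟨K₁, hK₁⟩ := mass_class_s (σ := -1) (Or.inr rfl) s j hP c (ε := ε / 4) (by positivity)
      obtain ⟨K₂, hK₂⟩ := split2 s
      refine ⟨max K₀ (max K₁ K₂), fun K hK => ?_⟩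
      have k0 : K₀ ≤ K := le_trans (le_max_left _ _) hK
      have k1 : K₁ ≤ K := le_trans (le_max_left _ _) (le_trans (le_max_right _ _) hK)
      have k2 : K₂ ≤ K := le_trans (le_max_right _ _) (le_trans (le_max_right _ _) hK)
      rw [Real.dist_eq, sub_zero]
      have e1 := hK₀ K k0
      have e2 := hK₁ K k1
      have e3 := hK₂ K k2 P c
      have e4 := hK₂ K k2 1 0
      rw [Cl_one, Cl_one, Cl_one] at e4
      rw [e3, e4]
      rw [abs_le] at e1 e2
      rw [abs_lt]
      constructor <;> nlinarith [e1.1, e1.2, e2.1, e2.2]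
    have h2 := (h1.add hμ).div_const (P : ℝ)
    rw [zero_add] at h2
    refine h2.congr fun K => ?_
    field_simp
    ring
  | succ a ih =>
    intro j P hP c
    have hdz : (0 : ℤ) < d := by have := s.adm.two_le; omega
    have hd0 : 0 < d := by omega
    have hP0 : 0 < P := Nat.pos_of_dvd_of_pos hP (by have := s.adm.big; positivity)
    set i := (c % d).toNat with hi
    have hid : i < d := by
      have h1 := Int.emod_nonneg c hdz.ne'
      have h2 := Int.emod_lt_of_pos c hdz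
      omega
    have hmi : m i ≠ 0 := t7_ne s.adm hid
    set n := (m i).natAbs with hnd
    have hn0 : 0 < n := Int.natAbs_pos.2 hmi
    have hnR : (0 : ℝ) < n := by exact_mod_cast hn0
    have hdR : (0 : ℝ) < d := by exact_mod_cast hd0
    have hnP : n * P ∣ PP d m ^ (j + 1) := by
      rw [pow_succ, mul_comm (PP d m ^ j)]
      exact mul_dvd_mul (dvd_prod_of_mem _ (mem_range.2 hid)) hP
    have hI := ih (j + 1) (n * P) hnP (Tm d m r c)
    have hI2 : Tendsto (fun K => ms (Cl (L2 d m r e F (K + e i)) (n * (d ^ a * P)) (Tm d m r c))) atTop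
        (𝓝 (μ / ((d ^ a * (n * P) : ℕ) : ℝ))) := by
      have h1 := (tendsto_add_atTop_iff_nat (f := fun K => ms (Cl (L2 d m r e F K) (d ^ a * (n * P))
        (Tm d m r c))) (e i)).2 hI
      refine h1.congr fun K => ?_
      have : d ^ a * (n * P) = n * (d ^ a * P) := by ring
      rw [this]
    have hI3 := hI2.const_mul ((n : ℝ) / d)
    rw [← tendsto_add_atTop_iff_nat 2]
    have hlim : (n : ℝ) / d * (μ / ((d ^ a * (n * P) : ℕ) : ℝ)) = μ / ((d ^ (a + 1) * P : ℕ) : ℝ) := by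
      have hPR : (0 : ℝ) < P := by exact_mod_cast hP0
      push_cast
      field_simp
      ring
    rw [hlim] at hI3
    refine tendsto_of_rel hI3 fun ε hε => ?_
    obtain ⟨K₀, hK₀⟩ := step_back2 s (q := d ^ a * P) c hi hnd.symm hε
    refine ⟨K₀, fun K hK => ?_⟩
    have h1 := hK₀ K hK
    have : d ^ (a + 1) * P = d * (d ^ a * P) := by ring
    rw [this]
    exact h1

end Pool.Agent.R344.FD
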