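import Pool.Agent.R344.FD.E

/-! Residues on the levels of generalised Collatz maps, part F: words and classes, steps of cost one. -/

set_option autoImplicit false

namespace Pool.Agent.R344.FD
open Pool.Agent.H319R3.GC Pool.Agent.H319R3.DN Finset Filter Topology
open Pool.Agent.R623.LN (cst UC)

variable {d : ℕ} {m r : ℕ → ℤ}

/-- the integers with a given itinerary form a residue class -/
theorem word_class (h : Adm d m r) (a : ℕ) : ∀ w : ℕ → ℕ, (∀ i, w i < d) → ∃ R : ℤ, ∀ x : ℤ,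
    (∀ i < a, (Tm d m r)^[i] x % d = w i) ↔ ((d : ℤ) ^ a) ∣ x - R := by
  have hdz : (0 : ℤ) < d := by have := h.two_le; omega
  induction a with
  | zero => intro w _; exact ⟨0, fun x => by simp⟩
  | succ a ih =>
    intro w hw
    obtain ⟨R', hR'⟩ := ih (fun i => w (i + 1)) (fun i => hw _)
    set i0 := w 0 with hi0
    have hi0d : i0 < d := hw 0
    obtain ⟨u, v, huv⟩ := (h.cop i0 hi0d).pow_right (n := a + 1)
    set b : ℤ := r i0 + d * R' with hb
    have hcop : IsCoprime ((d : ℤ) ^ (a + 1)) (m i0) := (IsCoprime.pow_right (h.cop i0 hi0d)).symm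
    have hcop1 : IsCoprime (d : ℤ) (m i0) := (h.cop i0 hi0d).symm
    have hmR : m i0 * (u * b) = b - d ^ (a + 1) * (v * b) := by linear_combination b * huv
    have hTx : ∀ x : ℤ, x % d = i0 → (d : ℤ) * Tm d m r x = m i0 * x - r i0 := by
      intro x hx
      have h1 := Tm_mul h x
      rw [hx, Int.toNat_natCast] at h1
      exact h1
    refine ⟨u * b, fun x => ⟨fun hx => ?_, fun hx => ?_⟩⟩
    · have h0 : x % d = i0 := hx 0 (by omega)
      have h1 : ((d : ℤ) ^ a) ∣ Tm d m r x - R' := by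
        rw [← hR']
        intro i hi
        have := hx (i + 1) (by omega)
        rwa [Function.iterate_succ_apply] at this
      obtain ⟨y, hy⟩ := h1
      apply hcop.dvd_of_dvd_mul_left
      refine ⟨y + v * b, ?_⟩
      have h2 := hTx x h0
      rw [pow_succ]
      rw [pow_succ] at hmR
      rw [hb] at *
      linear_combination -hmR - h2 + (d : ℤ) * hy
    · obtain ⟨y, hy⟩ := hx
      have h0 : x % d = i0 := by
        have h1 : (d : ℤ) ∣ m i0 * (x - i0) := by
          obtain ⟨z, hz⟩ := h.adm i0 hi0d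
          refine ⟨m i0 * d ^ a * y + R' - d ^ a * (v * b) - z, ?_⟩
          rw [pow_succ] at hy hmR
          rw [hb] at *
          linear_combination m i0 * hy + hmR - hz
        have h2 : (d : ℤ) ∣ x - i0 := hcop1.dvd_of_dvd_mul_left h1
        obtain ⟨z, hz⟩ := h2
        rw [show x = i0 + d * z by linarith, Int.add_mul_emod_self_left,
          Int.emod_eq_of_lt (by omega) (by exact_mod_cast hi0d)]
      have h1 : ((d : ℤ) ^ a) ∣ Tm d m r x - R' := by
        refine ⟨m i0 * y - v * b, ?_⟩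
        have h2 := hTx x h0
        have h3 : (d : ℤ) * (Tm d m r x - R') = d * (d ^ a * (m i0 * y - v * b)) := by
          rw [pow_succ] at hy hmR
          rw [hb] at *
          linear_combination h2 + m i0 * hy + hmR
        exact mul_left_cancel₀ hdz.ne' h3
      rw [← hR'] at h1
      intro i hi
      rcases Nat.eq_zero_or_pos i with rfl | hpos
      · exact h0
      · obtain ⟨j, rfl⟩ : ∃ j, i = j + 1 := ⟨i - 1, by omega⟩
        rw [Function.iterate_succ_apply]
        exact h1 j (by omega)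

theorem crt {A P : ℕ} (h : IsCoprime (A : ℤ) (P : ℤ)) (R c : ℤ) : ∃ s : ℤ, ∀ x : ℤ,
    ((A : ℤ) ∣ x - R ∧ (P : ℤ) ∣ x - c) ↔ ((A * P : ℕ) : ℤ) ∣ x - s := by
  obtain ⟨u, v, huv⟩ := h
  refine ⟨R * (v * P) + c * (u * A), fun x => ?_⟩
  have h1 : R - (R * (v * P) + c * (u * A)) = A * ((R - c) * u) := by linear_combination (-R) * huv
  have h2 : c - (R * (v * P) + c * (u * A)) = P * ((c - R) * v) := by linear_combination (-c) * huv
  constructor
  · rintro ⟨⟨y, hy⟩, ⟨z, hz⟩⟩
    push_cast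
    apply IsCoprime.mul_dvd ⟨u, v, huv⟩
    · refine ⟨y + (R - c) * u, ?_⟩
      linear_combination hy + h1
    · refine ⟨z + (c - R) * v, ?_⟩
      linear_combination hz + h2
  · rintro ⟨y, hy⟩
    push_cast at hy
    constructor
    · refine ⟨P * y - (R - c) * u, ?_⟩
      linear_combination hy - h1
    · refine ⟨A * y - (c - R) * v, ?_⟩
      linear_combination hy - h2

theorem cst_one (k : ℕ) (x : ℤ) : cst d m r (fun _ => 1) k x = k := by
  induction k generalizing x with
  | zero => rfl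
  | succ k ih =>
    rw [cst, ih]
    omega

theorem setup_one (h : Adm d m r) {F : Set ℤ} (hF : F.Finite) (hT : ∀ x ∈ F, Tm d m r x ∈ F) :
    Setup d m r (fun _ => 1) F F where
  adm := h
  he := fun _ _ => le_rfl
  hdet := fun k x y _ => by rw [cst_one, cst_one]
  hFF := subset_rfl
  hF := hF
  hT := hT

theorem L2_one {F : Set ℤ} (k : ℕ) : L2 d m r (fun _ => 1) F k =
    {x : ℤ | (Tm d m r)^[k + 1] x ∈ F ∧ ∀ j < k + 1, (Tm d m r)^[j] x ∉ F} := by
  ext x
  unfold L2 UC
  simp only [cst_one, Set.mem_ofPred_eq, not_exists, not_and, not_le]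
  constructor
  · rintro ⟨⟨i, h1, h2⟩, h3⟩
    have h4 := h3 i h1
    have : i = k + 1 := by omega
    subst this
    exact ⟨h1, fun j hj hx => by have := h3 j hx; omega⟩
  · rintro ⟨h1, h2⟩
    refine ⟨⟨k + 1, h1, le_rfl⟩, fun i hi => ?_⟩
    by_contra hc
    exact h2 i (by omega) hi

/-- **Leigh's chain on late levels** -/
theorem chain_levels (h : Adm d m r) {F : Set ℤ} (hF : F.Finite) (hT : ∀ x ∈ F, Tm d m r x ∈ F) {μ : ℝ}
    (hμ : Tendsto (fun k => ms {x : ℤ | (Tm d m r)^[k] x ∈ F ∧ ∀ j < k, (Tm d m r)^[j] x ∉ F}) atTop (𝓝 μ))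
    (a : ℕ) (w : ℕ → ℕ) (hw : ∀ i, w i < d) {j P : ℕ} (hP : P ∣ PP d m ^ j) (c : ℤ) :
    Tendsto (fun k => ms {x : ℤ | ((Tm d m r)^[k] x ∈ F ∧ ∀ j < k, (Tm d m r)^[j] x ∉ F) ∧
      (∀ i < a, (Tm d m r)^[i] x % d = w i) ∧ (P : ℤ) ∣ x - c}) atTop (𝓝 (μ / (d ^ a * P))) := by
  obtain ⟨R, hR⟩ := word_class h a w hw
  have hcop : IsCoprime (((d ^ a : ℕ) : ℤ)) (P : ℤ) := by
    have h1 : IsCoprime ((PP d m : ℕ) : ℤ) (d : ℤ) := by
      unfold PP
      rw [Nat.cast_prod]
      apply IsCoprime.prod_left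
      intro i hi
      have := h.cop i (mem_range.1 hi)
      rw [Int.natCast_natAbs]
      exact (IsCoprime.abs_left_iff _ _).2 this
    push_cast
    apply IsCoprime.pow_left
    obtain ⟨z, hz⟩ := hP
    have h2 : IsCoprime (d : ℤ) ((PP d m ^ j : ℕ) : ℤ) := by
      push_cast
      exact IsCoprime.pow_right h1.symm
    rw [hz] at h2
    push_cast at h2
    exact IsCoprime.of_mul_right_left h2
  obtain ⟨s0, hs0⟩ := crt hcop R c
  have s := setup_one h hF hT
  have hμ2 : Tendsto (fun k => ms (L2 d m r (fun _ => 1) F k)) atTop (𝓝 μ) := by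
    have h1 := (tendsto_add_atTop_iff_nat (f := fun k => ms {x : ℤ | (Tm d m r)^[k] x ∈ F ∧
      ∀ j < k, (Tm d m r)^[j] x ∉ F}) 1).2 hμ
    refine h1.congr fun k => ?_
    rw [L2_one]
  have h3 := residues2 s hμ2 a j P hP s0
  rw [← tendsto_add_atTop_iff_nat 1]
  have h4 : μ / ((d ^ a * P : ℕ) : ℝ) = μ / ((d : ℝ) ^ a * P) := by push_cast; rfl
  rw [h4] at h3
  refine h3.congr fun k => ?_
  congr 1
  rw [L2_one]
  unfold Cl
  ext x
  simp only [Set.mem_ofPred_eq]
  rw [← hs0 x, hR x]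
  push_cast
  rfl

end Pool.Agent.R344.FD
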